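import Pool.Agent.Q289.BK.En

/-!
# Divisors in sparse sets of the members of families of integers of nearly minimal energy: the count
-/

set_option autoImplicit false

namespace Pool.Agent.Q289.BK

open Finset
open Pool.Agent.H373R2.T7 (energy)

lemma ev_logN (c : ℝ) : ∃ N₀ : ℕ, ∀ N : ℕ, N₀ ≤ N → c ≤ Real.log N :=
  ((Real.tendsto_log_atTop.comp tendsto_natCast_atTop_atTop).eventually_ge_atTop c).exists_forall_of_atTop

lemma ev_logPow (c : ℝ) (k : ℕ) : ∃ N₀ : ℕ, ∀ N : ℕ, N₀ ≤ N → c * Real.log N ^ k < N := by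
  have h1 := (Real.isLittleO_pow_log_id_atTop (n := k)).bound (c := 1 / (|c| + 1)) (by positivity)
  obtain ⟨N₀, h⟩ := (tendsto_natCast_atTop_atTop (R := ℝ)).eventually (h1.and (Filter.eventually_ge_atTop (1 : ℝ)))
    |>.exists_forall_of_atTop
  refine ⟨N₀, fun N hN => ?_⟩
  obtain ⟨h2, h3⟩ := h N hN
  have h4 : 0 ≤ Real.log N := Real.log_nonneg h3
  rw [Real.norm_of_nonneg (by positivity), id, Real.norm_of_nonneg (by linarith)] at h2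
  have h5 : (|c| + 1) * Real.log N ^ k ≤ N := by
    have := mul_le_mul_of_nonneg_left h2 (a := |c| + 1) (by positivity)
    refine this.trans (le_of_eq ?_)
    field_simp
  have h6 : c * Real.log N ^ k ≤ |c| * Real.log N ^ k := mul_le_mul_of_nonneg_right (le_abs_self c) (by positivity)
  by_cases h7 : Real.log N ^ k = 0
  · rw [h7, mul_zero]; linarith
  · have h8 : 0 < Real.log N ^ k := lt_of_le_of_ne (by positivity) (Ne.symm h7)
    nlinarith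

lemma root_le {k x Λ : ℝ} {p : ℕ} (hp : 1 ≤ p) (hx : 0 ≤ x) (hΛ : 0 ≤ Λ) (h : k ^ (2 * p) ≤ Λ * x ^ (2 * p)) :
    k ≤ x * Λ ^ (1 / (2 * (p : ℝ))) := by
  have hp0 : (0 : ℝ) < p := by exact_mod_cast hp
  by_contra hcon
  push Not at hcon
  have h1 : 0 ≤ x * Λ ^ (1 / (2 * (p : ℝ))) := by positivity
  have h2 := pow_lt_pow_left₀ hcon h1 (by omega : 2 * p ≠ 0)
  have h3 : (x * Λ ^ (1 / (2 * (p : ℝ)))) ^ (2 * p) = Λ * x ^ (2 * p) := by
    rw [mul_pow, ← Real.rpow_natCast (Λ ^ (1 / (2 * (p : ℝ)))), ← Real.rpow_mul hΛ]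
    have h4 : 1 / (2 * (p : ℝ)) * ((2 * p : ℕ) : ℝ) = 1 := by
      push_cast
      field_simp
    rw [h4, Real.rpow_one, mul_comm]
  rw [h3] at h2
  linarith

/-- the order of the energy is positive at large scales -/
lemma order_pos (p C : ℕ) : ∃ N₀ : ℕ, ∀ N : ℕ, N₀ ≤ N → ∀ (x : ℕ) (s : ℕ → ℤ),
    (energy p x s : ℝ) * N ≤ Real.log N ^ C * (x : ℝ) ^ (2 * p) → 1 ≤ p := by
  obtain ⟨N₀, h⟩ := ev_logPow 1 C
  refine ⟨N₀, fun N hN x s hE => ?_⟩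
  by_contra hp
  have hp0 : p = 0 := by omega
  subst hp0
  have h1 := card_pow_le 0 x s 1 0 le_rfl ∅ (empty_subset _) (by simp)
  have h2 := h N hN
  simp only [mul_zero, pow_zero, Nat.zero_div, Nat.cast_zero, zero_add, one_mul, mul_one] at h1 hE
  have h3 : (0 : ℝ) ≤ N := Nat.cast_nonneg _
  nlinarith

/-- few members are small -/
theorem fam_small (p C U : ℕ) : ∃ N₀ : ℕ, ∀ N : ℕ, N₀ ≤ N → ∀ (x : ℕ) (s : ℕ → ℤ),
    (energy p x s : ℝ) * N ≤ Real.log N ^ C * (x : ℝ) ^ (2 * p) →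
    ∀ S : Finset ℕ, S ⊆ Icc 1 x → (∀ m ∈ S, |(s m : ℝ)| * Real.log N ^ (C + 2 * p * (U + 1)) ≤ N) →
      (S.card : ℝ) ≤ x / Real.log N ^ U := by
  obtain ⟨N₁, h1⟩ := order_pos p C
  obtain ⟨N₂, h2⟩ := ev_logN (((2 * p + 1 : ℕ) : ℝ) ^ (1 / (2 * (p : ℝ))) + 1)
  obtain ⟨N₃, h3⟩ := ev_logPow 1 (C + 2 * p * (U + 1))
  refine ⟨N₁ + N₂ + N₃ + 1, fun N hN x s hE S hS hSs => ?_⟩
  have hp := h1 N (by omega) x s hE
  have hL := h2 N (by omega)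
  have hLN := h3 N (by omega)
  have hp0 : (0 : ℝ) < p := by exact_mod_cast hp
  have hr0 : 0 ≤ ((2 * p + 1 : ℕ) : ℝ) ^ (1 / (2 * (p : ℝ))) := by positivity
  obtain ⟨L, hLd⟩ : ∃ L, L = Real.log N := ⟨_, rfl⟩
  rw [← hLd] at hE hSs hL hLN ⊢
  have hL1 : 1 ≤ L := by linarith
  have hL0 : 0 < L := by linarith
  have hN0 : (0 : ℝ) < N := by exact_mod_cast (by omega : 0 < N)
  obtain ⟨V, hV⟩ : ∃ V, V = C + 2 * p * (U + 1) := ⟨_, rfl⟩
  rw [← hV] at hSs hLN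
  have hLV : 0 < L ^ V := by positivity
  obtain ⟨Y, hY⟩ : ∃ Y : ℕ, Y = ⌊(N : ℝ) / L ^ V⌋₊ := ⟨_, rfl⟩
  have hYN : (Y : ℝ) ≤ N / L ^ V := by rw [hY]; exact Nat.floor_le (by positivity)
  have h4 := card_pow_le p x s 1 Y le_rfl S hS (by
    intro i hi
    refine ⟨by simp, ?_⟩
    have h5 := hSs i hi
    have h6 : (((s i).natAbs : ℕ) : ℝ) = |(s i : ℝ)| := by
      rw [Nat.cast_natAbs, Int.cast_abs]
    have h7 : (s i).natAbs ≤ Y := by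
      rw [hY]
      apply Nat.le_floor
      rw [h6, le_div_iff₀ hLV]
      exact h5
    rw [Int.abs_eq_natAbs]
    exact_mod_cast h7)
  rw [Nat.div_one] at h4
  have h5 : (2 * ((p * Y : ℕ) : ℝ) + 1) ≤ ((2 * p + 1 : ℕ) : ℝ) * (N / L ^ V) := by
    have h6 : (1 : ℝ) ≤ N / L ^ V := by
      rw [le_div_iff₀ hLV]
      linarith
    push_cast
    nlinarith
  have h6 : (S.card : ℝ) ^ (2 * p) ≤ (((2 * p + 1 : ℕ) : ℝ) * (L ^ C / L ^ V)) * (x : ℝ) ^ (2 * p) := by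
    refine h4.trans ?_
    calc (2 * ((p * Y : ℕ) : ℝ) + 1) * (energy p x s : ℝ) ≤ ((2 * p + 1 : ℕ) : ℝ) * (N / L ^ V) * (energy p x s : ℝ) :=
          mul_le_mul_of_nonneg_right h5 (Nat.cast_nonneg _)
      _ = ((2 * p + 1 : ℕ) : ℝ) / L ^ V * ((energy p x s : ℝ) * N) := by ring
      _ ≤ ((2 * p + 1 : ℕ) : ℝ) / L ^ V * (L ^ C * (x : ℝ) ^ (2 * p)) := mul_le_mul_of_nonneg_left hE (by positivity)
      _ = _ := by ring
  have h7 := root_le hp (Nat.cast_nonneg x) (by positivity) h6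
  refine h7.trans ?_
  rw [div_eq_mul_inv (x : ℝ)]
  apply mul_le_mul_of_nonneg_left _ (Nat.cast_nonneg x)
  have h8 : L ^ C / L ^ V = (L ^ (U + 1)) ^ (-(2 * (p : ℝ))) := by
    rw [hV, pow_add, ← Real.rpow_natCast L (U + 1), ← Real.rpow_mul hL0.le,
      ← Real.rpow_natCast L (2 * p * (U + 1))]
    have h9 : ((2 * p * (U + 1) : ℕ) : ℝ) = -(((U + 1 : ℕ) : ℝ) * (-(2 * (p : ℝ)))) := by
      push_cast; ring
    rw [h9, Real.rpow_neg hL0.le]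
    field_simp
  rw [h8, Real.mul_rpow (by positivity) (by positivity), ← Real.rpow_mul (by positivity)]
  have h9 : -(2 * (p : ℝ)) * (1 / (2 * (p : ℝ))) = -1 := by field_simp
  rw [h9, Real.rpow_neg_one, pow_succ, mul_inv]
  have h10 : ((2 * p + 1 : ℕ) : ℝ) ^ (1 / (2 * (p : ℝ))) * L⁻¹ ≤ 1 := by
    rw [← div_eq_mul_inv, div_le_one hL0]
    linarith
  calc _ = (L ^ U)⁻¹ * (((2 * p + 1 : ℕ) : ℝ) ^ (1 / (2 * (p : ℝ))) * L⁻¹) := by ring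
    _ ≤ (L ^ U)⁻¹ * 1 := mul_le_mul_of_nonneg_left h10 (by positivity)
    _ = _ := mul_one _

/-- few members have a large divisor in a sparse set -/
theorem fam_div (D : Set ℕ) [DecidablePred (· ∈ D)] (hD : ∀ ε : ℝ, 0 < ε → ∃ X₀ : ℕ, ∀ X : ℕ, X₀ ≤ X →
      (((Icc 1 X).filter (fun e => e ∈ D)).card : ℝ) ≤ (X : ℝ) ^ ε) (p B C U : ℕ) :
    ∃ N₀ : ℕ, ∀ N : ℕ, N₀ ≤ N → ∀ (x : ℕ) (s : ℕ → ℤ),
    (∀ m ∈ Icc 1 x, |s m| ≤ B * N) → (energy p x s : ℝ) * N ≤ Real.log N ^ C * (x : ℝ) ^ (2 * p) →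
    ∀ S : Finset ℕ, S ⊆ Icc 1 x →
      (∀ m ∈ S, s m ≠ 0 ∧ ∃ e ∈ D, Real.log N ^ (4 * p * (U + 1) + 2 * C) < (e : ℝ) ∧ (e : ℤ) ∣ s m) →
      (S.card : ℝ) ≤ x / Real.log N ^ U := by
  classical
  obtain ⟨N₁, h1⟩ := order_pos p C
  rcases Nat.eq_zero_or_pos p with hp0 | hp
  · exact ⟨N₁, fun N hN x s _ hE => absurd (h1 N hN x s hE) (by omega)⟩
  have hp0 : (0 : ℝ) < p := by exact_mod_cast hp
  obtain ⟨σ, hσ⟩ : ∃ σ : ℝ, σ = 1 / (2 * (p : ℝ)) := ⟨_, rfl⟩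
  have hσ0 : 0 < σ := by rw [hσ]; positivity
  obtain ⟨K, hK0, hK⟩ := sum_sparse D hD (σ / 2) (by positivity)
  obtain ⟨M, hM⟩ : ∃ M : ℝ, M = (((2 * p + 1) * B : ℕ) : ℝ) ^ σ * K := ⟨_, rfl⟩
  have hM0 : 0 ≤ M := by rw [hM]; positivity
  obtain ⟨N₂, h2⟩ := ev_logN (M + 1)
  refine ⟨N₁ + N₂ + 1, fun N hN x s hs hE S hS hSs => ?_⟩
  have hL := h2 N (by omega)
  obtain ⟨L, hLd⟩ : ∃ L, L = Real.log N := ⟨_, rfl⟩
  rw [← hLd] at hE hSs hL ⊢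
  have hL1 : 1 ≤ L := by linarith
  have hL0 : 0 < L := by linarith
  have hN0 : (0 : ℝ) < N := by exact_mod_cast (by omega : 0 < N)
  obtain ⟨Z, hZ⟩ : ∃ Z : ℝ, Z = L ^ (4 * p * (U + 1) + 2 * C) := ⟨_, rfl⟩
  rw [← hZ] at hSs
  have hZ0 : 0 < Z := by rw [hZ]; positivity
  obtain ⟨E, hEd⟩ : ∃ E, E = (Icc 1 (B * N)).filter (fun e : ℕ => e ∈ D ∧ Z < (e : ℝ)) := ⟨_, rfl⟩
  have hsub : S ⊆ E.biUnion (fun e => S.filter (fun m => (e : ℤ) ∣ s m)) := by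
    intro m hm
    obtain ⟨h3, e, h4, h5, h6⟩ := hSs m hm
    rw [mem_biUnion]
    refine ⟨e, ?_, mem_filter.2 ⟨hm, h6⟩⟩
    rw [hEd, mem_filter, mem_Icc]
    refine ⟨⟨?_, ?_⟩, h4, h5⟩
    · by_contra hcon
      have he0 : e = 0 := by omega
      subst he0
      rw [Nat.cast_zero] at h5
      linarith
    · have h7 := Int.natAbs_dvd_natAbs.2 h6
      rw [Int.natAbs_natCast] at h7
      have h8 := Nat.le_of_dvd (Int.natAbs_pos.2 h3) h7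
      have h9 : ((s m).natAbs : ℤ) ≤ ((B * N : ℕ) : ℤ) := by
        rw [← Int.abs_eq_natAbs]
        push_cast
        exact hs m (hS hm)
      have h10 : (s m).natAbs ≤ B * N := by exact_mod_cast h9
      omega
  have h3 := (card_le_card hsub).trans card_biUnion_le
  have h4 : (S.card : ℝ) ≤ ∑ e ∈ E, ((S.filter (fun m => (e : ℤ) ∣ s m)).card : ℝ) := by exact_mod_cast h3
  refine h4.trans ?_
  have h5 : ∀ e ∈ E, ((S.filter (fun m => (e : ℤ) ∣ s m)).card : ℝ) ≤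
      (x * ((((2 * p + 1) * B : ℕ) : ℝ) * L ^ C) ^ σ * Z ^ (-(σ / 2))) * (e : ℝ) ^ (-(σ / 2)) := by
    intro e he
    rw [hEd, mem_filter, mem_Icc] at he
    obtain ⟨⟨he1, he2⟩, _, he3⟩ := he
    have he0 : (0 : ℝ) < e := by exact_mod_cast he1
    have h6 := card_pow_le p x s e (B * N) he1 (S.filter (fun m => (e : ℤ) ∣ s m)) ((filter_subset _ _).trans hS) (by
      intro i hi
      obtain ⟨hi1, hi2⟩ := mem_filter.1 hi
      refine ⟨hi2, ?_⟩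
      push_cast
      exact hs i (hS hi1))
    have h7 : (2 * ((p * (B * N) / e : ℕ) : ℝ) + 1) ≤ (((2 * p + 1) * B : ℕ) : ℝ) * (N / e) := by
      have h8 : ((p * (B * N) / e : ℕ) : ℝ) ≤ (p * (B * N) : ℕ) / e := Nat.cast_div_le
      have h9 : (1 : ℝ) ≤ B * N / e := by
        rw [le_div_iff₀ he0, one_mul]
        exact_mod_cast he2
      calc (2 * ((p * (B * N) / e : ℕ) : ℝ) + 1) ≤ 2 * ((p * (B * N) : ℕ) / e) + B * N / e := by linarith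
        _ = _ := by push_cast; ring
    have h8 : ((S.filter (fun m => (e : ℤ) ∣ s m)).card : ℝ) ^ (2 * p) ≤
        ((((2 * p + 1) * B : ℕ) : ℝ) * L ^ C / e) * (x : ℝ) ^ (2 * p) := by
      refine h6.trans ?_
      calc (2 * ((p * (B * N) / e : ℕ) : ℝ) + 1) * (energy p x s : ℝ) ≤
            (((2 * p + 1) * B : ℕ) : ℝ) * (N / e) * (energy p x s : ℝ) :=
            mul_le_mul_of_nonneg_right h7 (Nat.cast_nonneg _)
        _ = (((2 * p + 1) * B : ℕ) : ℝ) / e * ((energy p x s : ℝ) * N) := by ring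
        _ ≤ (((2 * p + 1) * B : ℕ) : ℝ) / e * (L ^ C * (x : ℝ) ^ (2 * p)) := mul_le_mul_of_nonneg_left hE (by positivity)
        _ = _ := by ring
    have h9 := root_le hp (Nat.cast_nonneg x) (by positivity) h8
    rw [← hσ] at h9
    refine h9.trans ?_
    rw [div_eq_mul_inv, Real.mul_rpow (by positivity) (by positivity), Real.inv_rpow he0.le]
    have h10 : ((e : ℝ) ^ σ)⁻¹ ≤ Z ^ (-(σ / 2)) * (e : ℝ) ^ (-(σ / 2)) := by
      have h11 : (e : ℝ) ^ σ = (e : ℝ) ^ (σ / 2) * (e : ℝ) ^ (σ / 2) := by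
        rw [← Real.rpow_add he0]
        congr 1
        ring
      rw [h11, mul_inv, ← Real.rpow_neg he0.le]
      apply mul_le_mul_of_nonneg_right _ (by positivity)
      exact Real.rpow_le_rpow_of_nonpos hZ0 he3.le (by linarith)
    calc (x : ℝ) * (((((2 * p + 1) * B : ℕ) : ℝ) * L ^ C) ^ σ * ((e : ℝ) ^ σ)⁻¹)
        ≤ x * (((((2 * p + 1) * B : ℕ) : ℝ) * L ^ C) ^ σ * (Z ^ (-(σ / 2)) * (e : ℝ) ^ (-(σ / 2)))) := by
          gcongr
      _ = _ := by ring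
  refine (sum_le_sum h5).trans ?_
  rw [← mul_sum]
  have h6 : ∑ e ∈ E, (e : ℝ) ^ (-(σ / 2)) ≤ K := hK E (by
    intro e he
    rw [hEd, mem_filter, mem_Icc] at he
    exact ⟨he.2.1, he.1.1⟩)
  refine (mul_le_mul_of_nonneg_left h6 (by positivity)).trans ?_
  rw [div_eq_mul_inv (x : ℝ), mul_assoc, mul_assoc]
  apply mul_le_mul_of_nonneg_left _ (Nat.cast_nonneg x)
  have h7 : (L ^ C) ^ σ * Z ^ (-(σ / 2)) = (L ^ (U + 1))⁻¹ := by
    rw [hZ, ← Real.rpow_natCast L C, ← Real.rpow_natCast L (4 * p * (U + 1) + 2 * C), ← Real.rpow_mul hL0.le,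
      ← Real.rpow_mul hL0.le, ← Real.rpow_add hL0, ← Real.rpow_natCast L (U + 1), ← Real.rpow_neg hL0.le]
    congr 1
    rw [hσ]
    push_cast
    field_simp
    ring
  rw [Real.mul_rpow (by positivity) (by positivity)]
  calc (((2 * p + 1) * B : ℕ) : ℝ) ^ σ * (L ^ C) ^ σ * (Z ^ (-(σ / 2)) * K)
      = ((((2 * p + 1) * B : ℕ) : ℝ) ^ σ * K) * ((L ^ C) ^ σ * Z ^ (-(σ / 2))) := by ring
    _ = M * (L ^ (U + 1))⁻¹ := by rw [h7, ← hM]
    _ = (L ^ U)⁻¹ * (M * L⁻¹) := by rw [pow_succ, mul_inv]; ring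
    _ ≤ (L ^ U)⁻¹ * 1 := by
      apply mul_le_mul_of_nonneg_left _ (by positivity)
      rw [← div_eq_mul_inv, div_le_one hL0]
      linarith
    _ = _ := mul_one _

end Pool.Agent.Q289.BK
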