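import Mathlib
import Pool.Agent.H373R2.T7.EnergyDef

/-!
# Divisors in sparse sets of the members of families of integers of nearly minimal energy
-/

set_option autoImplicit false

namespace Pool.Agent.Q289.BK

open Finset
open Pool.Agent.H373R2.T7 (energy)

open Classical in
/-- Cauchy-Schwarz for the members in `[-Y, Y]` which are multiples of `e` -/
lemma card_pow_le (p x : ℕ) (s : ℕ → ℤ) (e Y : ℕ) (he : 1 ≤ e) (I : Finset ℕ) (hI : I ⊆ Icc 1 x)
    (h : ∀ i ∈ I, (e : ℤ) ∣ s i ∧ |s i| ≤ Y) :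
    (I.card : ℝ) ^ (2 * p) ≤ (2 * ((p * Y / e : ℕ) : ℝ) + 1) * energy p x s := by
  set T : Finset (Fin p → ℕ) := Fintype.piFinset (fun _ : Fin p => I) with hT
  set g : (Fin p → ℕ) → ℤ := fun v => ∑ i, s (v i) with hg
  set B : Finset ℤ := (Icc (-((p * Y / e : ℕ) : ℤ)) ((p * Y / e : ℕ) : ℤ)).image (fun t => (e : ℤ) * t) with hB
  have he0 : (0 : ℤ) < e := by exact_mod_cast he
  have hTc : T.card = I.card ^ p := by
    rw [hT, Fintype.card_piFinset]
    simp
  have hmap : ∀ v ∈ T, g v ∈ B := by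
    intro v hv
    rw [hT, Fintype.mem_piFinset] at hv
    have h1 : (e : ℤ) ∣ g v := dvd_sum fun i _ => (h _ (hv i)).1
    have h2 : |g v| ≤ ((p * Y : ℕ) : ℤ) := by
      refine (abs_sum_le_sum_abs _ _).trans ((sum_le_sum fun i _ => (h _ (hv i)).2).trans ?_)
      rw [sum_const, card_univ, Fintype.card_fin, nsmul_eq_mul]
      push_cast
      exact le_refl _
    obtain ⟨t, ht⟩ := h1
    rw [hB, mem_image]
    refine ⟨t, ?_, ht.symm⟩
    rw [ht, abs_mul, abs_of_pos he0] at h2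
    have h3 : |t| ≤ ((p * Y / e : ℕ) : ℤ) := by
      have h4 : t.natAbs ≤ p * Y / e := by
        rw [Nat.le_div_iff_mul_le (by omega)]
        have h5 : ((t.natAbs * e : ℕ) : ℤ) ≤ ((p * Y : ℕ) : ℤ) := by
          push_cast
          rw [mul_comm]
          push_cast at h2
          exact h2
        exact_mod_cast h5
      rw [Int.abs_eq_natAbs]
      exact_mod_cast h4
    rw [mem_Icc]
    exact abs_le.1 h3
  have h1 : (T.card : ℝ) = ∑ b ∈ B, ((T.filter (fun v => g v = b)).card : ℝ) := by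
    rw [card_eq_sum_card_fiberwise hmap]
    push_cast
    rfl
  have h2 : (T.card : ℝ) ^ 2 ≤ B.card * ∑ b ∈ B, ((T.filter (fun v => g v = b)).card : ℝ) ^ 2 := by
    rw [h1]
    exact sq_sum_le_card_mul_sum_sq
  have h3 : ∑ b ∈ B, ((T.filter (fun v => g v = b)).card : ℝ) ^ 2 ≤ energy p x s := by
    have h4 : ∑ b ∈ B, ((T.filter (fun v => g v = b)).card) ^ 2 ≤ energy p x s := by
      have h5 : ((T ×ˢ T).filter (fun z => g z.1 = g z.2)).card ≤ energy p x s := by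
        unfold energy
        have h7 : ∀ z : (Fin p → ℕ) × (Fin p → ℕ), z ∈ (T ×ˢ T).filter (fun z => g z.1 = g z.2) →
            z ∈ ((Fintype.piFinset fun _ : Fin p => Icc 1 x) ×ˢ (Fintype.piFinset fun _ : Fin p => Icc 1 x)).filter
              (fun q => ∑ i, s (q.1 i) = ∑ i, s (q.2 i)) := by
          intro z hz
          rw [mem_filter, mem_product] at hz ⊢
          obtain ⟨⟨hz1, hz2⟩, hz3⟩ := hz
          rw [hT, Fintype.mem_piFinset] at hz1 hz2
          refine ⟨⟨?_, ?_⟩, hz3⟩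
          · rw [Fintype.mem_piFinset]
            intro i
            exact hI (hz1 i)
          · rw [Fintype.mem_piFinset]
            intro i
            exact hI (hz2 i)
        convert card_le_card h7
      refine le_trans (le_of_eq ?_) h5
      have h6 : ∀ z ∈ (T ×ˢ T).filter (fun z => g z.1 = g z.2), g z.1 ∈ B := by
        intro z hz
        rw [mem_filter, mem_product] at hz
        exact hmap _ hz.1.1
      rw [card_eq_sum_card_fiberwise h6]
      refine sum_congr rfl fun b _ => ?_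
      rw [sq, ← card_product]
      congr 1
      ext z
      simp only [mem_product, mem_filter]
      constructor
      · rintro ⟨⟨a1, a2⟩, a3, a4⟩
        exact ⟨⟨⟨a1, a3⟩, a2.trans a4.symm⟩, a2⟩
      · rintro ⟨⟨⟨a1, a2⟩, a3⟩, a4⟩
        exact ⟨⟨a1, a4⟩, a2, a3 ▸ a4⟩
    exact_mod_cast h4
  have h4 : (B.card : ℝ) ≤ 2 * ((p * Y / e : ℕ) : ℝ) + 1 := by
    have h5 : B.card ≤ 2 * (p * Y / e) + 1 := by
      have h6 := card_image_le (s := Icc (-((p * Y / e : ℕ) : ℤ)) ((p * Y / e : ℕ) : ℤ)) (f := fun t => (e : ℤ) * t)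
      rw [Int.card_Icc] at h6
      refine h6.trans ?_
      omega
    exact_mod_cast h5
  have h5 : ((I.card : ℝ)) ^ (2 * p) = (T.card : ℝ) ^ 2 := by
    rw [hTc]; push_cast; rw [← pow_mul, mul_comm]
  rw [h5]
  refine h2.trans ?_
  exact mul_le_mul h4 h3 (sum_nonneg fun _ _ => sq_nonneg _) (by positivity)

/-- a sparse set has a convergent sum of negative powers -/
lemma sum_sparse (D : Set ℕ) [DecidablePred (· ∈ D)] (hD : ∀ ε : ℝ, 0 < ε → ∃ X₀ : ℕ, ∀ X : ℕ, X₀ ≤ X →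
      (((Icc 1 X).filter (fun e => e ∈ D)).card : ℝ) ≤ (X : ℝ) ^ ε) (σ : ℝ) (hσ : 0 < σ) :
    ∃ K : ℝ, 0 < K ∧ ∀ S : Finset ℕ, (∀ e ∈ S, e ∈ D ∧ 1 ≤ e) → ∑ e ∈ S, (e : ℝ) ^ (-σ) ≤ K := by
  obtain ⟨X₀, h0⟩ := hD (σ / 2) (by positivity)
  have hsum : Summable (fun n : ℕ => 1 / (n : ℝ) ^ 2) := Real.summable_one_div_nat_pow.2 (by norm_num)
  refine ⟨(X₀ : ℝ) + 1 + ∑' n : ℕ, 1 / (n : ℝ) ^ 2, by positivity, fun S hS => ?_⟩
  obtain ⟨r, hr⟩ : ∃ r : ℕ → ℕ, r = fun e => ((Icc 1 e).filter (fun e => e ∈ D)).card := ⟨_, rfl⟩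
  have hinj : ∀ a ∈ S, ∀ b ∈ S, a < b → r a < r b := by
    intro a ha b hb hab
    rw [hr]
    apply card_lt_card
    rw [ssubset_iff_of_subset (filter_subset_filter _ (Icc_subset_Icc le_rfl hab.le))]
    refine ⟨b, ?_, ?_⟩
    · rw [mem_filter, mem_Icc]
      exact ⟨⟨(hS b hb).2, le_rfl⟩, (hS b hb).1⟩
    · rw [mem_filter, mem_Icc]
      rintro ⟨⟨_, h2⟩, _⟩
      omega
  have hsplit : ∑ e ∈ S, (e : ℝ) ^ (-σ) = ∑ e ∈ S.filter (fun e => e < X₀ + 1), (e : ℝ) ^ (-σ) +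
      ∑ e ∈ S.filter (fun e => ¬ e < X₀ + 1), (e : ℝ) ^ (-σ) := (sum_filter_add_sum_filter_not _ _ _).symm
  have h1 : ∑ e ∈ S.filter (fun e => e < X₀ + 1), (e : ℝ) ^ (-σ) ≤ (X₀ : ℝ) + 1 := by
    have h2 : ∀ e ∈ S.filter (fun e => e < X₀ + 1), (e : ℝ) ^ (-σ) ≤ 1 := by
      intro e he
      have h3 := (hS e (mem_filter.1 he).1).2
      exact Real.rpow_le_one_of_one_le_of_nonpos (by exact_mod_cast h3) (by linarith)
    refine (sum_le_sum h2).trans ?_
    rw [sum_const, nsmul_eq_mul, mul_one]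
    have h4 : (S.filter (fun e => e < X₀ + 1)).card ≤ X₀ + 1 := by
      have h5 : S.filter (fun e => e < X₀ + 1) ⊆ range (X₀ + 1) := by
        intro e he
        exact mem_range.2 (mem_filter.1 he).2
      have h6 := card_le_card h5
      rwa [card_range] at h6
    exact_mod_cast h4
  have h2 : ∑ e ∈ S.filter (fun e => ¬ e < X₀ + 1), (e : ℝ) ^ (-σ) ≤ ∑' n : ℕ, 1 / (n : ℝ) ^ 2 := by
    have h3 : ∀ e ∈ S.filter (fun e => ¬ e < X₀ + 1), (e : ℝ) ^ (-σ) ≤ 1 / ((r e : ℕ) : ℝ) ^ 2 := by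
      intro e he
      obtain ⟨he1, he2⟩ := mem_filter.1 he
      obtain ⟨he3, he4⟩ := hS e he1
      have he0 : (0 : ℝ) < e := by exact_mod_cast he4
      have hr1 : 1 ≤ r e := by
        rw [hr]
        apply card_pos.2
        exact ⟨e, mem_filter.2 ⟨mem_Icc.2 ⟨he4, le_rfl⟩, he3⟩⟩
      have hr0 : (0 : ℝ) < (r e : ℕ) := by exact_mod_cast hr1
      have h4 : ((r e : ℕ) : ℝ) ≤ (e : ℝ) ^ (σ / 2) := by
        rw [hr]
        exact h0 e (by omega)
      have h5 : ((r e : ℕ) : ℝ) ^ 2 ≤ (e : ℝ) ^ σ := by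
        calc ((r e : ℕ) : ℝ) ^ 2 ≤ ((e : ℝ) ^ (σ / 2)) ^ 2 := pow_le_pow_left₀ hr0.le h4 2
          _ = (e : ℝ) ^ σ := by
            rw [← Real.rpow_natCast, ← Real.rpow_mul he0.le]
            congr 1
            push_cast
            ring
      rw [Real.rpow_neg he0.le, ← one_div]
      exact one_div_le_one_div_of_le (by positivity) h5
    refine (sum_le_sum h3).trans ?_
    have hinj2 : Set.InjOn r (S.filter (fun e => ¬ e < X₀ + 1)) := by
      intro a ha b hb hab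
      have ha1 := (mem_filter.1 (mem_coe.1 ha)).1
      have hb1 := (mem_filter.1 (mem_coe.1 hb)).1
      rcases lt_trichotomy a b with h | h | h
      · exact absurd (hinj a ha1 b hb1 h) (by omega)
      · exact h
      · exact absurd (hinj b hb1 a ha1 h) (by omega)
    have h4 := sum_image (f := fun n : ℕ => 1 / (n : ℝ) ^ 2) hinj2
    rw [← h4]
    exact hsum.sum_le_tsum _ (fun _ _ => by positivity)
  rw [hsplit]
  linarith

end Pool.Agent.Q289.BK
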