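import Pool.Agent.Q289.BK.Div
import Pool.Agent.Y883.T6.One6

/-!
# Prime solutions of linear equations whose large coefficient belongs to a family of nearly minimal energy
-/

set_option autoImplicit false

namespace Pool.Agent.Q289.BK

open Finset
open Pool.Agent.H373R2.T7 (energy)
open Pool.Agent.Y883.T5 (Admissible)
open Pool.Agent.Y883.T6 (SmallSolution)

/-- all admissible equations with `|c| = n` and two small coefficients are solved with the exponent `μ` -/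
def GoodC (μ : ℝ) (T n : ℕ) : Prop :=
  ∀ a b c d : ℤ, Admissible a b c d → c.natAbs = n →
    |(a : ℝ)| ≤ Real.log |(c : ℝ)| ^ T → |(b : ℝ)| ≤ Real.log |(c : ℝ)| ^ T → SmallSolution μ a b c d

lemma small_of {μ : ℝ} (hμ : 0 < μ) {a b c d : ℤ} (h : ∃ p q r : ℕ, p.Prime ∧ q.Prime ∧ r.Prime ∧ a * p + b * q + c * r = d ∧
          ((max p (max q r) : ℕ) : ℝ) ≤ 3 * |(d : ℝ)| + |(c : ℝ)| ^ μ) : SmallSolution μ a b c d := by
  obtain ⟨p, q, r, h1, h2, h3, h4, h5⟩ := h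
  refine ⟨p, q, r, h1, h2, h3, h4, h5.trans (add_le_add_right ?_ _)⟩
  apply Real.rpow_le_rpow (abs_nonneg _) _ hμ.le
  have h6 : |c| ≤ max 3 (max |a| (max |b| |c|)) :=
    (le_max_right _ _).trans ((le_max_right _ _).trans (le_max_right _ _))
  have h7 : ((|c| : ℤ) : ℝ) ≤ ((max 3 (max |a| (max |b| |c|)) : ℤ) : ℝ) := by exact_mod_cast h6
  rw [Int.cast_abs] at h7
  exact h7

theorem fam_good (ε : ℝ) (hε : 0 < ε) (T p B C U : ℕ) : ∃ N₀ : ℕ, ∀ N : ℕ, N₀ ≤ N → ∀ (x : ℕ) (s : ℕ → ℤ),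
    (∀ m ∈ Icc 1 x, |s m| ≤ B * N) → (energy p x s : ℝ) * N ≤ Real.log N ^ C * (x : ℝ) ^ (2 * p) →
    ∀ S : Finset ℕ, S ⊆ Icc 1 x → (∀ m ∈ S, ¬ GoodC (3 / 2 + ε) T (s m).natAbs) → (S.card : ℝ) ≤ x / Real.log N ^ U := by
  classical
  obtain ⟨D, -, hD, hone⟩ := Pool.Agent.Y883.T6.one6
  obtain ⟨T₀, hT₀⟩ : ∃ T₀, T₀ = 4 * p * (U + 1 + 1) + 2 * C := ⟨_, rfl⟩
  obtain ⟨V, hV⟩ : ∃ V, V = C + 2 * p * (U + 1 + 1) := ⟨_, rfl⟩
  obtain ⟨c₀, F, -, hF, hmain⟩ := hone (3 / 2 + ε) (by linarith) 1 one_pos (T + 2 * T₀)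
  have hF0 := hF (by linarith)
  obtain ⟨N₁, h1⟩ := fam_small p C (U + 1)
  obtain ⟨N₂, h2⟩ := fam_div D (by
    intro ε hε
    obtain ⟨X₀, h⟩ := hD ε hε
    refine ⟨X₀, fun X hX => ?_⟩
    convert h X hX) p B C (U + 1)
  obtain ⟨N₃, h3⟩ := ev_logN 4
  obtain ⟨N₄, h4⟩ := ev_logPow 1 (2 * V)
  obtain ⟨N₅, h5⟩ := ev_logPow c₀ V
  refine ⟨N₁ + N₂ + N₃ + N₄ + N₅ + 1, fun N hN x s hs hE S hS hSb => ?_⟩
  have g1 := h1 N (by omega) x s hE
  have g2 := h2 N (by omega) x s hs hE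
  have g3 := h3 N (by omega)
  have g4 := h4 N (by omega)
  have g5 := h5 N (by omega)
  rw [← hV] at g1
  rw [← hT₀] at g2
  obtain ⟨L, hL⟩ : ∃ L, L = Real.log N := ⟨_, rfl⟩
  rw [← hL] at g1 g2 g3 g4 g5 ⊢
  have hL0 : 0 < L := by linarith
  have hN0 : (0 : ℝ) < N := by exact_mod_cast (by omega : 0 < N)
  have a1 := g1 (S.filter (fun m => |(s m : ℝ)| * L ^ V ≤ N)) ((filter_subset _ _).trans hS)
    (fun m hm => (mem_filter.1 hm).2)
  have a2 := g2 (S.filter (fun m => ¬ |(s m : ℝ)| * L ^ V ≤ N)) ((filter_subset _ _).trans hS) (by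
    intro m hm
    obtain ⟨hm1, hm2⟩ := mem_filter.1 hm
    rw [not_le] at hm2
    have hLV : 0 < L ^ V := by positivity
    have e1 : (N : ℝ) / L ^ V < |(s m : ℝ)| := by rwa [div_lt_iff₀ hLV]
    have e2 : (0 : ℝ) < |(s m : ℝ)| := lt_trans (by positivity) e1
    have e3 : s m ≠ 0 := by
      intro h0
      rw [h0] at e2
      simp at e2
    refine ⟨e3, ?_⟩
    by_contra hcon
    push Not at hcon
    apply hSb m hm1
    intro a b c d hadm hc ha hb
    have hcabs : |(c : ℝ)| = |(s m : ℝ)| := by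
      rw [← Int.cast_abs, ← Int.cast_abs, Int.abs_eq_natAbs, Int.abs_eq_natAbs, hc]
    have hlog : L / 2 ≤ Real.log |(c : ℝ)| := by
      rw [hcabs]
      have e4 : Real.log ((N : ℝ) / L ^ V) ≤ Real.log |(s m : ℝ)| := Real.log_le_log (by positivity) e1.le
      rw [Real.log_div hN0.ne' hLV.ne', ← hL] at e4
      have e5 : Real.log (L ^ V) ≤ L / 2 := by
        have e6 : L ^ V * L ^ V ≤ N := by
          rw [← pow_add]
          have : V + V = 2 * V := by omega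
          rw [this]
          linarith
        have e7 := Real.log_le_log (by positivity) e6
        rw [Real.log_mul hLV.ne' hLV.ne', ← hL] at e7
        linarith
      linarith
    have hlog1 : 1 ≤ Real.log |(c : ℝ)| := by linarith
    have hpow : Real.log |(c : ℝ)| ^ T ≤ Real.log |(c : ℝ)| ^ (T + 2 * T₀) := pow_le_pow_right₀ hlog1 (by omega)
    refine small_of (by linarith) (hmain a b c d hadm ?_ ?_ ?_ (ha.trans hpow) (hb.trans hpow))
    · have e4 : (c₀ : ℝ) < |(s m : ℝ)| := by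
        refine lt_trans ?_ e1
        rw [lt_div_iff₀ hLV]
        exact g5
      have e5 : (((s m).natAbs : ℕ) : ℝ) = |(s m : ℝ)| := by
        rw [Nat.cast_natAbs, Int.cast_abs]
      rw [← e5, ← hc] at e4
      exact_mod_cast e4.le
    · rw [hF0]
      exact Set.notMem_empty _
    · intro e he1 he2 he3
      refine hcon e he1 (lt_of_le_of_lt ?_ he2) ?_
      · calc L ^ T₀ ≤ ((L / 2) ^ 2) ^ T₀ := by
              apply pow_le_pow_left₀ hL0.le
              nlinarith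
          _ = (L / 2) ^ (2 * T₀) := by rw [← pow_mul]
          _ ≤ (L / 2) ^ (T + 2 * T₀) := pow_le_pow_right₀ (by linarith) (by omega)
          _ ≤ _ := pow_le_pow_left₀ (by linarith) hlog _
      · rw [← Int.natAbs_dvd_natAbs] at he3 ⊢
        rwa [hc] at he3)
  have hcard : (S.card : ℝ) = ((S.filter (fun m => |(s m : ℝ)| * L ^ V ≤ N)).card : ℝ) +
      ((S.filter (fun m => ¬ |(s m : ℝ)| * L ^ V ≤ N)).card : ℝ) := by
    exact_mod_cast (card_filter_add_card_filter_not _).symm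
  rw [hcard]
  have h9 : (x : ℝ) / L ^ (U + 1) ≤ (x / L ^ U) / 2 := by
    rw [pow_succ, ← div_div]
    apply div_le_div_of_nonneg_left (by positivity) (by norm_num) (by linarith)
  linarith

end Pool.Agent.Q289.BK
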