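import Pool.Agent.Q289.BK.Good

/-!
# Prime solutions of linear equations with coefficients without divisors of medium size
-/

set_option autoImplicit false

namespace Pool.Agent.Q289.BK

open Finset
open Pool.Agent.Y883.T5 (Admissible)
open Pool.Agent.Y883.T6 (SmallSolution)

/-- every divisor of `n` is at most `(log n) ^ T` or at least `n ^ δ` -/
def Rough (T : ℕ) (δ : ℝ) (n : ℕ) : Prop := ∀ e : ℕ, e ∣ n → (e : ℝ) ≤ Real.log n ^ T ∨ (n : ℝ) ^ δ ≤ e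

open Classical in
/-- `2 - θ` for `θ ≤ 3 / 2`, and `0` for `θ > 3 / 2` -/
noncomputable def Ex (θ : ℝ) : ℝ := if θ ≤ 3 / 2 then 2 - θ else 0

lemma absorb (K η : ℝ) (hη : 0 < η) : ∃ X₀ : ℕ, ∀ X : ℕ, X₀ ≤ X → K ≤ (X : ℝ) ^ η :=
  (((tendsto_rpow_atTop hη).comp tendsto_natCast_atTop_atTop).eventually_ge_atTop K).exists_forall_of_atTop

lemma log_abs (c : ℤ) : |(c : ℝ)| = ((c.natAbs : ℕ) : ℝ) := by rw [Nat.cast_natAbs, Int.cast_abs]

open Classical in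
theorem rough (θ δ η : ℝ) (hθ : 1 < θ) (hδ : 0 < δ) (hδ1 : δ ≤ 1) (hη : 0 < η) (T : ℕ) : ∃ X₀ : ℕ, ∀ X : ℕ, X₀ ≤ X →
    (((Icc 1 X).filter (fun n => Rough T δ n ∧ ¬ GoodC θ T n)).card : ℝ) ≤ (X : ℝ) ^ (max (Ex θ) (1 - δ) + η) := by
  obtain ⟨D, -, hD, hone⟩ := Pool.Agent.Y883.T6.one6
  obtain ⟨c₀, F, hF1, hF2, hmain⟩ := hone θ hθ (η / 4) (by positivity) T
  obtain ⟨X₁, h1⟩ := hD (η / 4) (by positivity)
  obtain ⟨X₂, h2⟩ := absorb c₀ (η / 2) (by positivity)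
  obtain ⟨X₃, h3⟩ := absorb 3 (η / 2) (by positivity)
  refine ⟨c₀ + X₁ + X₂ + X₃ + 1, fun X hX => ?_⟩
  have g1 := h1 X (by omega)
  have g2 := h2 X (by omega)
  have g3 := h3 X (by omega)
  have g4 := hF1 X (by omega)
  have hX1 : (1 : ℝ) ≤ X := by exact_mod_cast (by omega : 1 ≤ X)
  have hX0 : (0 : ℝ) < X := by linarith
  obtain ⟨M, hM⟩ : ∃ M, M = max (Ex θ) (1 - δ) := ⟨_, rfl⟩
  rw [← hM]
  have hM1 : Ex θ ≤ M := by rw [hM]; exact le_max_left _ _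
  have hM2 : 1 - δ ≤ M := by rw [hM]; exact le_max_right _ _
  have hM0 : 0 ≤ M := by linarith
  have hsub : (Icc 1 X).filter (fun n => Rough T δ n ∧ ¬ GoodC θ T n) ⊆
      Icc 1 c₀ ∪ ((Icc 1 X).filter (fun n => n ∈ F) ∪
        (((Icc 1 X).filter (fun e => e ∈ D)) ×ˢ (Icc 1 ⌊(X : ℝ) ^ (1 - δ)⌋₊)).image (fun z => z.1 * z.2)) := by
    intro n hn
    rw [mem_filter, mem_Icc] at hn
    obtain ⟨⟨n1, n2⟩, n3, n4⟩ := hn
    rw [mem_union, mem_union]
    by_contra hcon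
    push Not at hcon
    obtain ⟨k1, k2, k3⟩ := hcon
    rw [mem_Icc] at k1
    rw [mem_filter, mem_Icc] at k2
    apply n4
    intro a b c d hadm hc ha hb
    have hlog : |(c : ℝ)| = n := by rw [log_abs, hc]
    refine small_of (by linarith) (hmain a b c d hadm (by rw [hc]; omega) (by
      rw [hc]
      intro h
      exact k2 ⟨⟨n1, n2⟩, h⟩) ?_ ha hb)
    intro e he1 he2 he3
    have he4 : e ∣ n := by
      rw [← Int.natAbs_dvd_natAbs, hc] at he3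
      simpa using he3
    rcases n3 e he4 with h | h
    · rw [hlog] at he2
      linarith
    · obtain ⟨k, hk⟩ := he4
      have he0 : 0 < e := Nat.pos_of_ne_zero (by rintro rfl; omega)
      have hk0 : 0 < k := Nat.pos_of_ne_zero (by rintro rfl; omega)
      apply k3
      rw [mem_image]
      refine ⟨(e, k), ?_, hk.symm⟩
      rw [mem_product, mem_filter, mem_Icc, mem_Icc]
      have hen : e ≤ n := by rw [hk]; exact Nat.le_mul_of_pos_right _ hk0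
      refine ⟨⟨⟨he0, by simp only; omega⟩, he1⟩, hk0, Nat.le_floor ?_⟩
      have hn0 : (0 : ℝ) < n := by exact_mod_cast n1
      have hkR : (k : ℝ) = n / e := by
        rw [hk]
        push_cast
        have : (e : ℝ) ≠ 0 := by exact_mod_cast he0.ne'
        field_simp
      calc (k : ℝ) = n / e := hkR
        _ ≤ n / (n : ℝ) ^ δ := div_le_div_of_nonneg_left hn0.le (by positivity) h
        _ = (n : ℝ) ^ (1 - δ) := by rw [Real.rpow_sub hn0, Real.rpow_one]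
        _ ≤ (X : ℝ) ^ (1 - δ) := Real.rpow_le_rpow hn0.le (by exact_mod_cast n2) (by linarith)
  have h5 := (card_le_card hsub).trans ((card_union_le _ _).trans (Nat.add_le_add_left (card_union_le _ _) _))
  have h6 : (((Icc 1 X).filter (fun n => Rough T δ n ∧ ¬ GoodC θ T n)).card : ℝ) ≤ ((Icc 1 c₀).card : ℝ) +
      (((Icc 1 X).filter (fun n => n ∈ F)).card + (((((Icc 1 X).filter (fun e => e ∈ D)) ×ˢ
        (Icc 1 ⌊(X : ℝ) ^ (1 - δ)⌋₊)).image (fun z => z.1 * z.2)).card : ℝ)) := by exact_mod_cast h5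
  have i1 : ((Icc 1 c₀).card : ℝ) ≤ (X : ℝ) ^ (M + η / 2) := by
    rw [Nat.card_Icc, Nat.add_sub_cancel]
    exact g2.trans (Real.rpow_le_rpow_of_exponent_le hX1 (by linarith))
  have i2 : (((Icc 1 X).filter (fun n => n ∈ F)).card : ℝ) ≤ (X : ℝ) ^ (M + η / 2) := by
    by_cases hθ2 : θ ≤ 3 / 2
    · refine g4.trans (Real.rpow_le_rpow_of_exponent_le hX1 ?_)
      have : Ex θ = 2 - θ := if_pos hθ2
      linarith
    · rw [hF2 (by linarith)]
      simp only [Set.mem_empty_iff_false, filter_false, card_empty, Nat.cast_zero]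
      positivity
  have i3 : (((((Icc 1 X).filter (fun e => e ∈ D)) ×ˢ
        (Icc 1 ⌊(X : ℝ) ^ (1 - δ)⌋₊)).image (fun z => z.1 * z.2)).card : ℝ) ≤ (X : ℝ) ^ (M + η / 2) := by
    have j1 : ((((Icc 1 X).filter (fun e => e ∈ D)) ×ˢ
        (Icc 1 ⌊(X : ℝ) ^ (1 - δ)⌋₊)).image (fun z => z.1 * z.2)).card ≤
        ((Icc 1 X).filter (fun e => e ∈ D)).card * ⌊(X : ℝ) ^ (1 - δ)⌋₊ := by
      refine card_image_le.trans ?_
      rw [card_product, Nat.card_Icc, Nat.add_sub_cancel]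
    have j2 : (⌊(X : ℝ) ^ (1 - δ)⌋₊ : ℝ) ≤ (X : ℝ) ^ (1 - δ) := Nat.floor_le (by positivity)
    calc _ ≤ ((((Icc 1 X).filter (fun e => e ∈ D)).card * ⌊(X : ℝ) ^ (1 - δ)⌋₊ : ℕ) : ℝ) := by exact_mod_cast j1
      _ = (((Icc 1 X).filter (fun e => e ∈ D)).card : ℝ) * (⌊(X : ℝ) ^ (1 - δ)⌋₊ : ℝ) := by push_cast; ring
      _ ≤ (X : ℝ) ^ (η / 4) * (X : ℝ) ^ (1 - δ) := mul_le_mul g1 j2 (Nat.cast_nonneg _) (by positivity)
      _ = (X : ℝ) ^ (η / 4 + (1 - δ)) := (Real.rpow_add hX0 _ _).symm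
      _ ≤ _ := Real.rpow_le_rpow_of_exponent_le hX1 (by linarith)
  calc _ ≤ 3 * (X : ℝ) ^ (M + η / 2) := by linarith
    _ ≤ (X : ℝ) ^ (η / 2) * (X : ℝ) ^ (M + η / 2) := mul_le_mul_of_nonneg_right g3 (by positivity)
    _ = _ := by
      rw [← Real.rpow_add hX0]
      congr 1
      ring

end Pool.Agent.Q289.BK
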