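import Pool.Agent.Q289.BK.Rough
import Pool.Agent.Y883.T6.Cnt6

/-!
# Prime solutions of linear equations with three prime coefficients
-/

set_option autoImplicit false

namespace Pool.Agent.Q289.BK

open Finset
open Pool.Agent.Y883.T5 (Admissible)
open Pool.Agent.Y883.T6 (SmallSolution GoodPair)

/-- all admissible equations with the absolute values `u`, `v`, `w` of the coefficients -/
def Good3 (μ : ℝ) (t : ℕ × ℕ × ℕ) : Prop :=
  ∀ a b c d : ℤ, Admissible a b c d → a.natAbs = t.1 → b.natAbs = t.2.1 → c.natAbs = t.2.2 → SmallSolution μ a b c d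

/-- three different primes -/
def Primes3 (t : ℕ × ℕ × ℕ) : Prop :=
  t.1.Prime ∧ t.2.1.Prime ∧ t.2.2.Prime ∧ t.1 ≠ t.2.1 ∧ t.2.1 ≠ t.2.2 ∧ t.2.2 ≠ t.1

lemma goodPair {D F : Set ℕ} {Δ u v : ℕ} (hu : u.Prime) (hv : v.Prime) (huv : u ≠ v)
    (h1 : u ∉ D) (h2 : v ∉ D) (h3 : u * v ∉ D ∪ F) {a b : ℤ} (ha : a.natAbs = u) (hb : b.natAbs = v) :
    GoodPair 0 D F Δ a b := by
  refine ⟨?_, ?_, ?_⟩
  · have : Int.gcd a b = 1 := by
      unfold Int.gcd
      rw [ha, hb]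
      exact (Nat.coprime_primes hu hv).2 huv
    rw [this]
    simp
  · intro e he h4 h5
    rw [pow_zero] at h4
    rw [← Int.natAbs_dvd_natAbs, Int.natAbs_mul, ha, hb, Int.natAbs_natCast] at h5
    obtain ⟨e1, e2, k1, k2, k3⟩ := (Nat.dvd_mul.1 h5)
    rcases (Nat.dvd_prime hu).1 k1 with q1 | q1 <;> rcases (Nat.dvd_prime hv).1 k2 with q2 | q2
    · subst q1 q2
      rw [← k3] at h4
      norm_num at h4
    · subst q1 q2
      rw [one_mul] at k3
      rw [← k3] at he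
      exact h2 he
    · subst q1 q2
      rw [mul_one] at k3
      rw [← k3] at he
      exact h1 he
    · subst q1 q2
      rw [← k3] at he
      exact h3 (Or.inl he)
  · intro _ h
    rw [Int.natAbs_mul, ha, hb] at h
    exact h3 (Or.inr h)

open Classical in
theorem triples (μ η : ℝ) (hμ : 2 < μ) (hη : 0 < η) : ∃ X₀ : ℕ, ∀ X : ℕ, X₀ ≤ X →
    (((Icc 1 X ×ˢ Icc 1 X ×ˢ Icc 1 X).filter (fun t => Primes3 t ∧ ¬ Good3 μ t)).card : ℝ) ≤
      (X : ℝ) ^ (max (5 - μ) 2 + η) := by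
  obtain ⟨D, -, hD, hthree⟩ := Pool.Agent.Y883.T6.main6
  obtain ⟨Δ₀, F, hF1, -, hmain⟩ := hthree (μ / 2) (by linarith) (η / 8) (by positivity) 0
  obtain ⟨C, hC, hpm⟩ := Pool.Agent.Y883.T6.pair_mem (η / 8) (by positivity)
  obtain ⟨X₁, h1⟩ := hD (η / 8) (by positivity)
  obtain ⟨X₂, h2⟩ := absorb ((6 + 6 * C) + (Δ₀ : ℝ) ^ 3) (η / 2) (by positivity)
  refine ⟨Δ₀ + X₁ + X₂ + 1, fun X hX => ?_⟩
  have hX1n : 1 ≤ X := by omega
  have hXX : X ≤ X * X := Nat.le_mul_of_pos_left X hX1n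
  have g1 := h1 X (by omega)
  have g1' := h1 (X * X) (by omega)
  have g2 := h2 X (by omega)
  have g4 := hF1 (X * X) (by omega)
  have hX1 : (1 : ℝ) ≤ X := by exact_mod_cast hX1n
  have hX0 : (0 : ℝ) < X := by linarith
  have hsq : ∀ s : ℝ, (((X * X : ℕ) : ℝ)) ^ s = (X : ℝ) ^ (2 * s) := by
    intro s
    have : ((X * X : ℕ) : ℝ) = (X : ℝ) ^ (2 : ℝ) := by
      push_cast
      rw [Real.rpow_two, sq]
    rw [this, ← Real.rpow_mul hX0.le]
  rw [hsq] at g1' g4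
  obtain ⟨M, hM⟩ : ∃ M, M = max (5 - μ) 2 := ⟨_, rfl⟩
  rw [← hM]
  have hM1 : 5 - μ ≤ M := by rw [hM]; exact le_max_left _ _
  have hM2 : 2 ≤ M := by rw [hM]; exact le_max_right _ _
  obtain ⟨G, hG⟩ : ∃ G : Set ℕ, G = D ∪ F := ⟨_, rfl⟩
  obtain ⟨P, hP⟩ : ∃ P : Finset (ℕ × ℕ), P = (Icc 1 X ×ˢ Icc 1 X).filter
      (fun s : ℕ × ℕ => s.1 ∈ D ∨ s.2 ∈ D ∨ s.1 * s.2 ∈ G) := ⟨_, rfl⟩
  -- the number of the bad pairs
  have hPc : (P.card : ℝ) ≤ (2 + 2 * C) * (X : ℝ) ^ (M - 1 + η / 2) := by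
    have hsub : P ⊆ (((Icc 1 X).filter (fun e => e ∈ D)) ×ˢ Icc 1 X) ∪ ((Icc 1 X ×ˢ ((Icc 1 X).filter (fun e => e ∈ D))) ∪
        (Icc 1 X ×ˢ Icc 1 X).filter (fun s : ℕ × ℕ => s.1 * s.2 ∈ G)) := by
      rintro ⟨u, v⟩ h
      rw [hP, mem_filter, mem_product] at h
      obtain ⟨⟨k1, k2⟩, k3⟩ := h
      simp only at k1 k2 k3
      rw [mem_union, mem_union, mem_product, mem_product, mem_filter, mem_filter, mem_filter, mem_product]
      rcases k3 with k3 | k3 | k3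
      · exact Or.inl ⟨⟨k1, k3⟩, k2⟩
      · exact Or.inr (Or.inl ⟨k1, k2, k3⟩)
      · exact Or.inr (Or.inr ⟨⟨k1, k2⟩, k3⟩)
    have h5 := (card_le_card hsub).trans ((card_union_le _ _).trans (Nat.add_le_add_left (card_union_le _ _) _))
    rw [card_product, card_product, Nat.card_Icc, Nat.add_sub_cancel] at h5
    have h6 : (P.card : ℝ) ≤ (((Icc 1 X).filter (fun e => e ∈ D)).card : ℝ) * X +
        (X * (((Icc 1 X).filter (fun e => e ∈ D)).card : ℝ) +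
        (((Icc 1 X ×ˢ Icc 1 X).filter (fun s : ℕ × ℕ => s.1 * s.2 ∈ G)).card : ℝ)) := by exact_mod_cast h5
    have h7 := hpm X (G)
    have h8 : (((Icc 1 (X * X)).filter (fun q => q ∈ G)).card : ℝ) ≤ (X : ℝ) ^ (2 * (η / 8)) +
        (X : ℝ) ^ (2 * (2 - μ / 2 + η / 8)) := by
      have h9 : (Icc 1 (X * X)).filter (fun q => q ∈ G) ⊆ (Icc 1 (X * X)).filter (fun q => q ∈ D) ∪
          (Icc 1 (X * X)).filter (fun q => q ∈ F) := by
        intro q hq
        rw [mem_filter] at hq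
        rw [mem_union, mem_filter, mem_filter]
        have hq2 := hq.2
        rw [hG] at hq2
        rcases hq2 with h | h
        · exact Or.inl ⟨hq.1, h⟩
        · exact Or.inr ⟨hq.1, h⟩
      have h10 := (card_le_card h9).trans (card_union_le _ _)
      have h11 : (((Icc 1 (X * X)).filter (fun q => q ∈ G)).card : ℝ) ≤
          (((Icc 1 (X * X)).filter (fun q => q ∈ D)).card : ℝ) + (((Icc 1 (X * X)).filter (fun q => q ∈ F)).card : ℝ) := by
        exact_mod_cast h10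
      linarith
    have e1 : (((Icc 1 X).filter (fun e => e ∈ D)).card : ℝ) * X ≤ (X : ℝ) ^ (M - 1 + η / 2) := by
      calc _ ≤ (X : ℝ) ^ (η / 8) * (X : ℝ) ^ (1 : ℝ) := by
            rw [Real.rpow_one]
            exact mul_le_mul_of_nonneg_right g1 hX0.le
        _ = (X : ℝ) ^ (η / 8 + 1) := (Real.rpow_add hX0 _ _).symm
        _ ≤ _ := Real.rpow_le_rpow_of_exponent_le hX1 (by linarith)
    have e2 : C * (X : ℝ) ^ (η / 8) * (((Icc 1 (X * X)).filter (fun q => q ∈ G)).card : ℝ) ≤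
        2 * C * (X : ℝ) ^ (M - 1 + η / 2) := by
      calc _ ≤ C * (X : ℝ) ^ (η / 8) * ((X : ℝ) ^ (2 * (η / 8)) + (X : ℝ) ^ (2 * (2 - μ / 2 + η / 8))) := by
            apply mul_le_mul_of_nonneg_left h8
            positivity
        _ = C * (X : ℝ) ^ (η / 8 + 2 * (η / 8)) + C * (X : ℝ) ^ (η / 8 + 2 * (2 - μ / 2 + η / 8)) := by
            rw [Real.rpow_add hX0, Real.rpow_add hX0]
            ring
        _ ≤ C * (X : ℝ) ^ (M - 1 + η / 2) + C * (X : ℝ) ^ (M - 1 + η / 2) := by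
            exact add_le_add (mul_le_mul_of_nonneg_left (Real.rpow_le_rpow_of_exponent_le hX1 (by linarith)) hC.le)
              (mul_le_mul_of_nonneg_left (Real.rpow_le_rpow_of_exponent_le hX1 (by linarith)) hC.le)
        _ = _ := by ring
    have e3 : (X : ℝ) * (((Icc 1 X).filter (fun e => e ∈ D)).card : ℝ) ≤ (X : ℝ) ^ (M - 1 + η / 2) := by
      rw [mul_comm]; exact e1
    have e4 : (((Icc 1 X ×ˢ Icc 1 X).filter (fun s : ℕ × ℕ => s.1 * s.2 ∈ G)).card : ℝ) ≤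
        2 * C * (X : ℝ) ^ (M - 1 + η / 2) := by
      exact le_trans h7 e2
    calc (P.card : ℝ) ≤ _ := h6
      _ ≤ (X : ℝ) ^ (M - 1 + η / 2) + ((X : ℝ) ^ (M - 1 + η / 2) + 2 * C * (X : ℝ) ^ (M - 1 + η / 2)) := by
        exact add_le_add e1 (add_le_add e3 e4)
      _ = _ := by ring
  -- the bad triples
  have hsub : (Icc 1 X ×ˢ Icc 1 X ×ˢ Icc 1 X).filter (fun t => Primes3 t ∧ ¬ Good3 μ t) ⊆
      (Icc 1 Δ₀ ×ˢ Icc 1 Δ₀ ×ˢ Icc 1 Δ₀) ∪ (((P ×ˢ Icc 1 X).image (fun z => (z.1.1, z.1.2, z.2))) ∪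
        (((P ×ˢ Icc 1 X).image (fun z => (z.2, z.1.1, z.1.2))) ∪ ((P ×ˢ Icc 1 X).image (fun z => (z.1.2, z.2, z.1.1))))) := by
    rintro ⟨u, v, w⟩ h
    rw [mem_filter, mem_product, mem_product] at h
    obtain ⟨⟨k1, k2, k3⟩, ⟨p1, p2, p3, p4, p5, p6⟩, k4⟩ := h
    simp only at k1 k2 k3 p1 p2 p3 p4 p5 p6
    rw [mem_union, mem_union, mem_union]
    by_contra hcon
    push Not at hcon
    obtain ⟨q0, q1, q2, q3⟩ := hcon
    apply k4
    intro a b c d hadm ha hb hc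
    simp only at ha hb hc
    have r1 : (u, v) ∉ P := by
      intro h
      apply q1
      rw [mem_image]
      exact ⟨((u, v), w), mem_product.2 ⟨h, k3⟩, rfl⟩
    have r2 : (v, w) ∉ P := by
      intro h
      apply q2
      rw [mem_image]
      exact ⟨((v, w), u), mem_product.2 ⟨h, k1⟩, rfl⟩
    have r3 : (w, u) ∉ P := by
      intro h
      apply q3
      rw [mem_image]
      exact ⟨((w, u), v), mem_product.2 ⟨h, k2⟩, rfl⟩
    rw [hP, mem_filter, mem_product] at r1 r2 r3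
    push Not at r1 r2 r3
    obtain ⟨s1, s2, s3⟩ := r1 ⟨k1, k2⟩
    obtain ⟨t1, t2, t3⟩ := r2 ⟨k2, k3⟩
    obtain ⟨v1, v2, v3⟩ := r3 ⟨k3, k1⟩
    rw [hG] at s3 t3 v3
    have hsol := hmain a b c d hadm _ rfl (by
      by_contra hlt
      push Not at hlt
      apply q0
      have hab : (a * b).natAbs = u * v := by rw [Int.natAbs_mul, ha, hb]
      have hbc : (b * c).natAbs = v * w := by rw [Int.natAbs_mul, hb, hc]
      have hca : (c * a).natAbs = w * u := by rw [Int.natAbs_mul, hc, ha]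
      rw [hab, hbc, hca] at hlt
      have hu := Nat.le_mul_of_pos_right u p2.pos
      have hv := Nat.le_mul_of_pos_right v p3.pos
      have hw := Nat.le_mul_of_pos_right w p1.pos
      rw [mem_product, mem_product, mem_Icc, mem_Icc, mem_Icc]
      have := p1.pos
      have := p2.pos
      have := p3.pos
      simp only
      omega) (goodPair p1 p2 p4 s1 s2 s3 ha hb) (goodPair p2 p3 p5 t1 t2 t3 hb hc) (goodPair p3 p1 p6 v1 v2 v3 hc ha)
    refine hsol.small hadm.a_ne hadm.b_ne hadm.c_ne ?_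
    obtain ⟨m, hm⟩ : ∃ m : ℤ, m = max 3 (max |a| (max |b| |c|)) := ⟨_, rfl⟩
    rw [← hm]
    have m1 : |a| ≤ m := by rw [hm]; exact (le_max_left _ _).trans (le_max_right _ _)
    have m2 : |b| ≤ m := by
      rw [hm]; exact (le_max_left _ _).trans ((le_max_right _ _).trans (le_max_right _ _))
    have m3 : |c| ≤ m := by
      rw [hm]; exact (le_max_right _ _).trans ((le_max_right _ _).trans (le_max_right _ _))
    have m0 : 3 ≤ m := by rw [hm]; exact le_max_left _ _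
    have hle : ((max (a * b).natAbs (max (b * c).natAbs (c * a).natAbs) : ℕ) : ℤ) ≤ m * m := by
      push_cast
      rw [abs_mul, abs_mul, abs_mul]
      refine max_le ?_ (max_le ?_ ?_) <;> exact mul_le_mul (by assumption) (by assumption) (abs_nonneg _) (by omega)
    have hle' : ((max (a * b).natAbs (max (b * c).natAbs (c * a).natAbs) : ℕ) : ℝ) ≤ (m : ℝ) ^ (2 : ℝ) := by
      rw [Real.rpow_two, sq]
      have hle2 := (Int.cast_le (R := ℝ)).2 hle
      rw [Int.cast_natCast, Int.cast_mul] at hle2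
      exact hle2
    have hm0 : (0 : ℝ) ≤ m := by exact_mod_cast (by omega : (0 : ℤ) ≤ m)
    calc _ ≤ ((m : ℝ) ^ (2 : ℝ)) ^ (μ / 2) := Real.rpow_le_rpow (Nat.cast_nonneg _) hle' (by linarith)
      _ = (m : ℝ) ^ μ := by
        rw [← Real.rpow_mul hm0]
        congr 1
        ring
  have h5 := (card_le_card hsub).trans ((card_union_le _ _).trans (Nat.add_le_add_left
    ((card_union_le _ _).trans (Nat.add_le_add_left (card_union_le _ _) _)) _))
  have hi : ∀ f : (ℕ × ℕ) × ℕ → ℕ × ℕ × ℕ, ((P ×ˢ Icc 1 X).image f).card ≤ P.card * X := by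
    intro f
    refine card_image_le.trans ?_
    rw [card_product, Nat.card_Icc, Nat.add_sub_cancel]
  have h6 : ((Icc 1 X ×ˢ Icc 1 X ×ˢ Icc 1 X).filter (fun t => Primes3 t ∧ ¬ Good3 μ t)).card ≤
      Δ₀ ^ 3 + 3 * (P.card * X) := by
    have e1 : (Icc 1 Δ₀ ×ˢ Icc 1 Δ₀ ×ˢ Icc 1 Δ₀).card = Δ₀ ^ 3 := by
      rw [card_product, card_product, Nat.card_Icc, Nat.add_sub_cancel]
      ring
    have e2 := hi (fun z => (z.1.1, z.1.2, z.2))
    have e3 := hi (fun z => (z.2, z.1.1, z.1.2))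
    have e4 := hi (fun z => (z.1.2, z.2, z.1.1))
    rw [e1] at h5
    omega
  have h7 : (((Icc 1 X ×ˢ Icc 1 X ×ˢ Icc 1 X).filter (fun t => Primes3 t ∧ ¬ Good3 μ t)).card : ℝ) ≤
      (Δ₀ : ℝ) ^ 3 + 3 * (P.card * X) := by exact_mod_cast h6
  have h8 : (P.card : ℝ) * X ≤ (2 + 2 * C) * (X : ℝ) ^ (M + η / 2) := by
    calc (P.card : ℝ) * X ≤ (2 + 2 * C) * (X : ℝ) ^ (M - 1 + η / 2) * (X : ℝ) ^ (1 : ℝ) := by
          rw [Real.rpow_one]
          exact mul_le_mul_of_nonneg_right hPc hX0.le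
      _ = (2 + 2 * C) * (X : ℝ) ^ (M + η / 2) := by
          rw [mul_assoc, ← Real.rpow_add hX0]
          congr 2
          ring
  have h9 : (1 : ℝ) ≤ (X : ℝ) ^ (M + η / 2) := Real.one_le_rpow hX1 (by linarith)
  calc _ ≤ (Δ₀ : ℝ) ^ 3 * (X : ℝ) ^ (M + η / 2) + 3 * ((2 + 2 * C) * (X : ℝ) ^ (M + η / 2)) := by
        have : (Δ₀ : ℝ) ^ 3 ≤ (Δ₀ : ℝ) ^ 3 * (X : ℝ) ^ (M + η / 2) := le_mul_of_one_le_right (by positivity) h9
        linarith
    _ = ((6 + 6 * C) + (Δ₀ : ℝ) ^ 3) * (X : ℝ) ^ (M + η / 2) := by ring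
    _ ≤ (X : ℝ) ^ (η / 2) * (X : ℝ) ^ (M + η / 2) := mul_le_mul_of_nonneg_right g2 (by positivity)
    _ = _ := by
      rw [← Real.rpow_add hX0]
      congr 1
      ring

end Pool.Agent.Q289.BK
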